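import Mathlib
import Pool.Agent.R209.GasOde2
import Pool.Agent.R209.GasPde

set_option autoImplicit false

open Set Real Filter Topology MeasureTheory
open scoped NNReal ContDiff

/-!
# The asymptotic shapes of an eternal gas cloud at the two time ends (MP_f907ca_an, Q1)

For every dimension `d ≥ 2`, every `A > 0` and every `γ > 1` there is a shock-free eternal flow in vacuum
with physical singularity for which no single bounded set `O` describes `Ω(t)` at both ends.
-/

namespace Pool.Agent.Results.MP_f907ca_an.EternalCloud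

/-- Euclidean space of dimension `d`. -/
abbrev Space (d : ℕ) : Type := EuclideanSpace ℝ (Fin d)

/-- The partial derivative `∂f/∂x_i`. -/
noncomputable def pd {d : ℕ} (i : Fin d) (f : Space d → ℝ) (x : Space d) : ℝ :=
  fderiv ℝ f x (EuclideanSpace.single i 1)

/-- The square `c² = p'(ρ) = γ A ρ^(γ-1)` of the sound speed. -/
noncomputable def soundSq (A γ r : ℝ) : ℝ := γ * A * r ^ (γ - 1)

/-- The outer unit normal at a boundary point `x` of the set `{φ > 0}`. -/
noncomputable def outerNormal {d : ℕ} (φ : Space d → ℝ) (x : Space d) : Space d :=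
  -(‖gradient φ x‖⁻¹ • gradient φ x)

/-- A shock-free eternal flow in vacuum with physical singularity, for the isentropic Euler system with
pressure law `p = A ρ^γ` in `ℝ^d`. The gas occupies at time `t ∈ ℝ` the set `Ω t = {φ t > 0}`; `ρ` is the
density, `u` the velocity and `g` the front acceleration. -/
structure IsEternalFlow {d : ℕ} (A γ : ℝ) (Ω : ℝ → Set (Space d)) (φ : ℝ → Space d → ℝ)
    (ρ : ℝ → Space d → ℝ) (u : ℝ → Space d → Space d) (g : ℝ → Space d → ℝ) : Prop where
  /-- `Ω t` is a nonempty bounded open set with smooth boundary, which depends smoothly on `t` -/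
  smooth_phi : ContDiff ℝ ∞ (fun q : ℝ × Space d => φ q.1 q.2)
  domain_eq : ∀ t, Ω t = {x | 0 < φ t x}
  domain_nonempty : ∀ t, (Ω t).Nonempty
  domain_bounded : ∀ t, Bornology.IsBounded (Ω t)
  regular_boundary : ∀ t, ∀ x ∈ frontier (Ω t), gradient (φ t) x ≠ 0
  /-- gas inside, vacuum outside and on the front; finite mass and energy -/
  density_pos : ∀ t, ∀ x ∈ Ω t, 0 < ρ t x
  vacuum : ∀ t, ∀ x ∉ Ω t, ρ t x = 0
  finite_mass : ∀ t, Integrable (ρ t)
  finite_energy : ∀ t, Integrable fun x => ρ t x * ‖u t x‖ ^ 2 / 2 + A * ρ t x ^ γ / (γ - 1)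
  /-- `(ρ, u)` is a classical (`C¹`) solution of the Euler system in `{(t, x) : x ∈ Ω t}` -/
  classical : ContDiffOn ℝ 1 (fun q : ℝ × Space d => (ρ q.1 q.2, u q.1 q.2)) {q | q.2 ∈ Ω q.1}
  mass : ∀ t, ∀ x ∈ Ω t,
    deriv (fun s => ρ s x) t + ∑ i, pd i (fun y => ρ t y * u t y i) x = 0
  momentum : ∀ t, ∀ x ∈ Ω t, ∀ j,
    deriv (fun s => ρ s x * u s x j) t + ∑ i, pd i (fun y => ρ t y * u t y i * u t y j) x +
      pd j (fun y => A * ρ t y ^ γ) x = 0
  /-- the front: `u` is smooth across it and it moves with normal velocity `u·ν` -/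
  velocity_smooth : ContDiff ℝ ∞ (fun q : ℝ × Space d => u q.1 q.2)
  front_velocity : ∀ t, ∀ x ∈ frontier (Ω t),
    deriv (fun s => φ s x) t + fderiv ℝ (φ t) x (u t x) = 0
  /-- physical singularity: `c²` is Lipschitz up to the front, `g = -(γ-1)⁻¹ ∂c²/∂ν ≥ 0` on the front
  (one-sided derivative from inside the gas), `g` is not identically zero there, and the
  acceleration of the boundary particles is `g ν` -/
  sound_lipschitz : ∀ t, ∃ K : ℝ≥0, LipschitzOnWith K (fun x => soundSq A γ (ρ t x)) (closure (Ω t))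
  front_accel : ∀ t, ∀ x ∈ frontier (Ω t),
    HasDerivWithinAt (fun s : ℝ => soundSq A γ (ρ t (x - s • outerNormal (φ t) x)))
      ((γ - 1) * g t x) (Ici 0) 0
  accel_nonneg : ∀ t, ∀ x ∈ frontier (Ω t), 0 ≤ g t x
  accel_ne_zero : ∃ t, ∃ x ∈ frontier (Ω t), g t x ≠ 0
  accel_eq : ∀ t, ∀ x ∈ frontier (Ω t),
    deriv (fun s => u s x) t + fderiv ℝ (u t) x (u t x) = g t x • outerNormal (φ t) x

/-- `Ω(t)` behaves asymptotically as `t O` along the filter `l` (`l` is `atTop` for `t → +∞` and `atBot` for
`t → -∞`): the closure of `t⁻¹ Ω(t)` converges to the closure of `O` in Hausdorff distance. -/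
def BehavesAs {d : ℕ} (Ω : ℝ → Set (Space d)) (O : Set (Space d)) (l : Filter ℝ) : Prop :=
  Tendsto (fun t : ℝ => Metric.hausdorffEDist (closure ((fun x => t⁻¹ • x) '' Ω t)) (closure O)) l (𝓝 0)

open Pool.Agent.R209 Pool.Agent.R209.Gas

/-- flows from the motion of the semi-axes -/
theorem isEternalFlow {d : ℕ} (hd : 0 < d) {A γ : ℝ} (hA : 0 < A) (hγ : 1 < γ) {a av : Fin d → ℝ → ℝ}
    (h : Axes γ a av) :
    IsEternalFlow A γ (Om a) (S a) (rho A γ a) (vel a av)
      (fun t x => (∏ j, a j t) ^ (1 - γ) * ‖Gr a t x‖) := by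
  have hn : ∀ t x, outerNormal (S a t) x = (‖Gr a t x‖)⁻¹ • Gr a t x := by
    intro t x
    unfold outerNormal
    rw [gradient_S, norm_neg, norm_smul, smul_neg, neg_neg, smul_smul]
    congr 1
    simp
  refine ⟨h.contDiff_S, fun t => rfl, fun t => ⟨0, zero_mem t⟩, h.bounded, ?_, fun t x hx =>
    h.rho_pos hA hγ hx, fun t x hx => rho_zero hγ hx, h.integrable_rho hγ, h.integrable_energy hγ,
    h.contDiffOn hA hγ, fun t x hx => h.mass hA hγ hx, fun t x hx j => h.momentum hA hγ hx j,
    h.contDiff_vel, fun t x _ => h.front t x, h.sound_lip hA hγ, ?_, ?_, ?_, ?_⟩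
  · intro t x hx
    rw [gradient_S]
    have := h.Gr_ne (h.frontier_Om hx)
    simpa using this
  · intro t x hx
    simp only [hn]
    exact h.sound_normal hA hγ (h.frontier_Om hx)
  · intro t x _
    have := h.prod_pos t
    positivity
  · -- a boundary point
    have hne : (frontier (Om a 0)).Nonempty := by
      rw [nonempty_frontier_iff]
      refine ⟨⟨0, zero_mem 0⟩, fun huniv => ?_⟩
      have hb := h.bounded 0
      rw [huniv] at hb
      have : Nonempty (Fin d) := ⟨⟨0, hd⟩⟩
      have : Nontrivial (Space d) := inferInstance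
      exact NormedSpace.unbounded_univ ℝ (Space d) hb
    obtain ⟨x, hx⟩ := hne
    refine ⟨0, x, hx, ?_⟩
    have h1 := h.prod_pos 0
    have h2 := norm_pos_iff.2 (h.Gr_ne (h.frontier_Om hx))
    positivity
  · intro t x hx
    have h2 := norm_pos_iff.2 (h.Gr_ne (h.frontier_Om hx))
    rw [h.accel, hn, smul_smul]
    congr 1
    field_simp

/-- **No single asymptotic shape.** For every dimension `d ≥ 2`, every `A > 0` and every `γ > 1` there is a
shock-free eternal flow in vacuum with physical singularity such that for no bounded set `O` the domain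
`Ω(t)` behaves asymptotically as `t O` both as `t → +∞` and as `t → -∞`. -/
theorem result (d : ℕ) (hd : 2 ≤ d) (A γ : ℝ) (hA : 0 < A) (hγ : 1 < γ) :
    ∃ (Ω : ℝ → Set (Space d)) (φ : ℝ → Space d → ℝ) (ρ : ℝ → Space d → ℝ)
      (u : ℝ → Space d → Space d) (g : ℝ → Space d → ℝ),
      IsEternalFlow A γ Ω φ ρ u g ∧
      ¬ ∃ O : Set (Space d), Bornology.IsBounded O ∧ BehavesAs Ω O atTop ∧ BehavesAs Ω O atBot := by
  obtain ⟨n, rfl⟩ : ∃ n, d = n + 2 := ⟨d - 2, by omega⟩
  obtain ⟨z, w, c, zv, wv, cv, κ, hκ, hz, hw, hc, hzv, hwv, hcv, hreg, hsym, hgrow⟩ :=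
    exists_motion n hγ
  set a : Fin (n + 2) → ℝ → ℝ :=
    Fin.cons (fun t => z t + w t) (Fin.cons (fun t => z t - w t) (fun _ => c)) with ha
  set av : Fin (n + 2) → ℝ → ℝ :=
    Fin.cons (fun t => zv t + wv t) (Fin.cons (fun t => zv t - wv t) (fun _ => cv)) with hav
  have hP : ∀ t, 0 < z t ^ 2 - w t ^ 2 := fun t => region_pos (hreg t).1 (hreg t).2.1
  have hc0 : ∀ t, 0 < c t := fun t => by linarith [(hreg t).2.2]
  have hplus : ∀ t, 0 < z t + w t := fun t => by
    have := abs_le.1 (hreg t).2.1
    linarith [(hreg t).1]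
  have hminus : ∀ t, 0 < z t - w t := fun t => by
    have := abs_le.1 (hreg t).2.1
    linarith [(hreg t).1]
  have hprod : ∀ t, ∏ j, a j t = (z t ^ 2 - w t ^ 2) * c t ^ n := by
    intro t
    rw [Fin.prod_univ_succ, Fin.prod_univ_succ]
    simp [ha]
    ring
  have hpow : ∀ t, (∏ j, a j t) ^ (1 - γ) = Phi γ ((γ - 1) * n) (z t) (w t) (c t) * (z t ^ 2 - w t ^ 2) := by
    intro t
    rw [hprod, Real.mul_rpow (hP t).le (by have := hc0 t; positivity), ← Real.rpow_natCast (c t) n,
      ← Real.rpow_mul (hc0 t).le]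
    unfold Phi
    rw [show (n:ℝ) * (1 - γ) = -((γ - 1) * n) by ring, show (1 - γ) = 1 + (-γ) by ring,
      Real.rpow_add (hP t), Real.rpow_one]
    ring
  have hax : Axes γ a av := by
    refine ⟨?_, ?_, ?_⟩
    · intro i t
      refine Fin.cases ?_ (fun i => Fin.cases ?_ (fun i => ?_) i) i
      · simpa [ha, hav] using (hz t).fun_add (hw t)
      · simpa [ha, hav] using (hz t).fun_sub (hw t)
      · simpa [ha, hav] using hc t
    · intro i t
      rw [hpow]
      refine Fin.cases ?_ (fun i => Fin.cases ?_ (fun i => ?_) i) i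
      · have := (hzv t).add (hwv t)
        simp only [ha, hav, Fin.cons_zero]
        refine this.congr_deriv ?_
        have := (hplus t).ne'
        field_simp
        ring
      · have := (hzv t).sub (hwv t)
        simp only [ha, hav, Fin.cons_zero, Fin.cons_succ]
        refine this.congr_deriv ?_
        have := (hminus t).ne'
        field_simp
        ring
      · have := hcv t
        simp only [ha, hav, Fin.cons_succ]
        exact this
    · intro i t
      refine Fin.cases ?_ (fun i => Fin.cases ?_ (fun i => ?_) i) i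
      · simpa [ha] using hplus t
      · simpa [ha] using hminus t
      · simpa [ha] using hc0 t
  refine ⟨Om a, S a, rho A γ a, vel a av, _, isEternalFlow (by omega) hA hγ hax, ?_⟩
  rintro ⟨O, -, hO1, hO2⟩
  have ha0 : ∀ t, a 0 t = z t + w t := fun t => rfl
  -- the two rescaled domains stay apart
  have hfar : ∀ t : ℝ, 2 ≤ t → ENNReal.ofReal (2 * κ) ≤
      Metric.hausdorffEDist (closure ((fun x => t⁻¹ • x) '' Om a t))
        (closure ((fun x => (-t)⁻¹ • x) '' Om a (-t))) := by
    intro t ht
    have ht0 : 0 < t := by linarith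
    set p : Space (n + 2) := EuclideanSpace.single 0 (t⁻¹ * a 0 t) with hp
    have hpm : p ∈ closure ((fun x => t⁻¹ • x) '' Om a t) := by
      have h1 : (EuclideanSpace.single 0 (a 0 t) : Space (n + 2)) ∈ closure (Om a t) := by
        have hseq : Tendsto (fun r : ℝ => (EuclideanSpace.single 0 (r * a 0 t) : Space (n + 2)))
            (𝓝[Ico 0 1] 1) (𝓝 (EuclideanSpace.single 0 (1 * a 0 t))) := by
          have : Continuous fun r : ℝ => (EuclideanSpace.single 0 (r * a 0 t) : Space (n + 2)) := by
            have : (fun r : ℝ => (EuclideanSpace.single 0 (r * a 0 t) : Space (n + 2))) =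
                fun r : ℝ => (r * a 0 t) • (EuclideanSpace.single 0 (1:ℝ) : Space (n + 2)) := by
              funext r
              ext i
              simp [PiLp.single_apply]
            rw [this]
            fun_prop
          exact this.continuousAt.continuousWithinAt
        rw [one_mul] at hseq
        have : (𝓝[Ico (0:ℝ) 1] 1).NeBot := by
          rw [← mem_closure_iff_nhdsWithin_neBot, closure_Ico (by norm_num)]
          norm_num
        refine mem_closure_of_tendsto hseq ?_
        filter_upwards [self_mem_nhdsWithin] with r hr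
        have hpos := hax.pos 0 t
        show 0 < S a t _
        unfold S
        rw [Fin.sum_univ_succ]
        simp [PiLp.single_apply]
        have : (r * a 0 t) ^ 2 / a 0 t ^ 2 = r ^ 2 := by field_simp
        rw [this]
        nlinarith [hr.1, hr.2]
      have h2 := image_closure_subset_closure_image (f := fun x : Space (n + 2) => t⁻¹ • x)
        (s := Om a t) (continuous_const_smul _)
      refine h2 ⟨_, h1, ?_⟩
      ext i
      simp [hp, PiLp.single_apply]
    have hy : ∀ y ∈ closure ((fun x => (-t)⁻¹ • x) '' Om a (-t)), |y 0| ≤ t⁻¹ * a 0 (-t) := by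
      have hcl : IsClosed {y : Space (n + 2) | |y 0| ≤ t⁻¹ * a 0 (-t)} :=
        isClosed_le (by fun_prop) continuous_const
      refine closure_minimal ?_ hcl
      rintro _ ⟨x, hx, rfl⟩
      have h1 := hax.coord_le (le_of_lt (show 0 < S a (-t) x from hx)) 0
      show |((-t)⁻¹ • x) 0| ≤ t⁻¹ * a 0 (-t)
      rw [PiLp.smul_apply, smul_eq_mul, abs_mul, abs_inv, abs_neg, abs_of_pos ht0]
      exact mul_le_mul_of_nonneg_left h1 (by positivity)
    refine le_trans ?_ (Metric.infEDist_le_hausdorffEDist_of_mem hpm)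
    rw [Metric.le_infEDist]
    intro y hym
    have h1 := hy y hym
    have h2 : |p 0 - y 0| ≤ dist p y := by
      rw [dist_eq_norm]
      have := PiLp.norm_apply_le (p - y) 0
      simpa [Real.norm_eq_abs] using this
    have h3 : p 0 = t⁻¹ * a 0 t := by simp [hp]
    have h4 : 2 * κ ≤ t⁻¹ * a 0 t - t⁻¹ * a 0 (-t) := by
      rw [ha0, ha0, (hsym t).1, (hsym t).2.1]
      have := hgrow t ht
      have e : t⁻¹ * (z t + w t) - t⁻¹ * (z t + -w t) = 2 * (w t / t) := by
        field_simp
        ring
      rw [e]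
      have : κ ≤ w t / t := by rwa [le_div_iff₀ ht0]
      linarith
    have h5 : 2 * κ ≤ dist p y := by
      have h6 := le_abs_self (p 0 - y 0)
      have h7 := le_abs_self (y 0)
      rw [h3] at h2 h6
      linarith
    rw [edist_dist]
    exact ENNReal.ofReal_le_ofReal h5
  have hlim : Tendsto (fun t : ℝ => Metric.hausdorffEDist (closure ((fun x => t⁻¹ • x) '' Om a t))
        (closure ((fun x => (-t)⁻¹ • x) '' Om a (-t)))) atTop (𝓝 0) := by
    have h2 : Tendsto (fun t : ℝ => Metric.hausdorffEDist
        (closure ((fun x => (-t)⁻¹ • x) '' Om a (-t))) (closure O)) atTop (𝓝 0) :=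
      hO2.comp tendsto_neg_atTop_atBot
    have h3 := hO1.add h2
    rw [add_zero] at h3
    refine tendsto_of_tendsto_of_tendsto_of_le_of_le tendsto_const_nhds h3 (fun _ => zero_le)
      (fun t => ?_)
    refine (Metric.hausdorffEDist_triangle (t := closure O)).trans ?_
    rw [Metric.hausdorffEDist_comm (s := closure O)]
  have hpos : (0 : ENNReal) < ENNReal.ofReal (2 * κ) := ENNReal.ofReal_pos.2 (by positivity)
  have h1 := hlim.eventually (gt_mem_nhds hpos)
  obtain ⟨t, ht1, ht2⟩ := (h1.and (eventually_ge_atTop 2)).exists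
  exact absurd ht1 (not_lt.2 (hfar t ht2))

end Pool.Agent.Results.MP_f907ca_an.EternalCloud
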